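import Pool.Agent.Helper13.JS.St

/-!
# Project JS (MP_924f75_nt), module UB: upper bound sieve with one class for every prime
-/

set_option autoImplicit false

namespace Pool.Agent.Helper15.JS

open Finset ArithmeticFunction Pool.Agent.Helper13.JS

/-- Module UB. -/
theorem hUB : StUB := by
  classical
  obtain ⟨B, hB⟩ := Pool.Agent.Helper13.JC.upper
  obtain ⟨C, hC, hprod⟩ := Pool.Agent.Helper13.JC.prod_Sw
  refine ⟨B + 1, 3 * C + 1, by omega, by linarith, ?_⟩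
  intro w N p hw hN hp b e
  have hN' : w ^ B ≤ N := (Nat.pow_le_pow_right hw (by omega)).trans hN
  have hS : ∀ s ∈ Pool.Agent.Helper13.JC.Sw w, s.Prime ∧ 5 ≤ s ∧ s ≤ w := fun s hs => by
    unfold Pool.Agent.Helper13.JC.Sw at hs
    rw [Finset.mem_filter, Finset.mem_Icc] at hs
    exact ⟨hs.2, hs.1⟩
  obtain ⟨h0, hh0⟩ := Pool.Agent.Helper13.JC.crt p b e (Pool.Agent.Helper13.JC.Sw w)
    (fun s hs => ⟨(hS s hs).1, hp s (hS s hs).1 (hS s hs).2.2⟩)
  have h1 := hB w hw N p hN' hp (-(h0 * p)) (fun _ => 1) ∅ (by simp)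
  have hlog : 0 < Real.log ((w : ℝ) + 1) := by
    apply Real.log_pos
    have : (1 : ℝ) ≤ w := by exact_mod_cast hw
    linarith
  have hN0 : (0 : ℝ) ≤ N := Nat.cast_nonneg N
  have h2 : (((range N).filter fun h : ℕ => ∀ s : ℕ, s.Prime → 5 ≤ s → s ≤ w →
      ¬ (s : ℤ) ∣ b + h * p - e s).card : ℝ) ≤
      (((range N).filter fun h : ℕ => ∀ s ∈ Pool.Agent.Helper13.JC.Sw w,
        ¬ ((s : ℤ) ∣ -(h0 * p) + h * p ∨
        (s ∈ (∅ : Finset ℕ) ∧ (s : ℤ) ∣ -(h0 * p) + h * p - 1))).card : ℝ) := by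
    apply Nat.cast_le.mpr
    apply Finset.card_le_card
    intro h hh
    rw [Finset.mem_filter] at hh ⊢
    refine ⟨hh.1, fun s hs hd => ?_⟩
    obtain ⟨hs1, hs2, hs3⟩ := hS s hs
    rcases hd with hd | hd
    · apply hh.2 s hs1 hs2 hs3
      have h3 := hh0 s hs
      have h4 : b + (h : ℤ) * p - e s = (b + h0 * p - e s) + (-(h0 * p) + (h : ℤ) * p) := by ring
      rw [h4]
      exact dvd_add h3 hd
    · simp at hd
  refine h2.trans (h1.trans ?_)
  have h5 := hprod w hw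
  have h6 : ∏ s ∈ (Pool.Agent.Helper13.JC.Sw w).filter (· ∈ (∅ : Finset ℕ)), (1 - 1 / (s : ℝ)) = 1 := by
    simp
  rw [h6, mul_one]
  calc 3 * (N : ℝ) * ∏ s ∈ Pool.Agent.Helper13.JC.Sw w, (1 - 1 / (s : ℝ))
      ≤ 3 * (N : ℝ) * (C / Real.log (w + 1)) := by
        apply mul_le_mul_of_nonneg_left h5
        positivity
    _ = 3 * C * N / Real.log (w + 1) := by ring
    _ ≤ (3 * C + 1) * N / Real.log (w + 1) := by
        apply div_le_div_of_nonneg_right _ hlog.le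
        nlinarith

end Pool.Agent.Helper15.JS
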